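import Pool.Agent.Q5.SG.Stm2
import Pool.Agent.Q285.EX.Chev

/-!
# SG-CX (project SG of helper5): a ray class character modulo `𝔮` of `p`-power order (helper177)
-/

set_option autoImplicit false
set_option linter.unusedSectionVars false

namespace Pool.Agent.Q177.SG

open NumberField IsDedekindDomain Module Pool.Agent.Y18.LC Pool.Agent.Q5.SG Pool.Agent.Q92.AR

/-- a character of order `N` of a cyclic group of order divisible by `N` -/
theorem exists_char_cyclic {G : Type} [CommGroup G] [Finite G] [IsCyclic G] {N : ℕ} (hN : N ≠ 0)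
    (h : N ∣ Nat.card G) : ∃ (κ : Additive G →+ Additive ℂˣ) (g : G) (ξ : ℂˣ),
      IsPrimitiveRoot ξ N ∧ κ (Additive.ofMul g) = Additive.ofMul ξ ∧ ∀ x, N • κ x = 0 := by
  obtain ⟨g, hg⟩ := IsCyclic.exists_generator (α := G)
  have hgo : orderOf g = Nat.card G := orderOf_eq_card_of_forall_mem_zpowers hg
  obtain ⟨ξ, hξ⟩ : ∃ ξ : ℂˣ, IsPrimitiveRoot ξ N := by
    have h1 := Complex.isPrimitiveRoot_exp N hN
    refine ⟨Units.mk0 _ (h1.ne_zero hN), ?_⟩
    exact IsPrimitiveRoot.coe_units_iff.1 h1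
  let Γ : AddSubgroup (Additive G × ℤ) :=
    { carrier := {P | P.1 = Additive.ofMul (g ^ P.2)}
      add_mem' := by
        rintro ⟨a, i⟩ ⟨b, j⟩ ha hb
        have ha' : a = Additive.ofMul (g ^ i) := ha
        have hb' : b = Additive.ofMul (g ^ j) := hb
        show a + b = Additive.ofMul (g ^ (i + j))
        rw [ha', hb', zpow_add]
        rfl
      zero_mem' := by
        show (0 : Additive G) = Additive.ofMul (g ^ (0 : ℤ))
        rw [zpow_zero]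
        rfl
      neg_mem' := by
        rintro ⟨a, i⟩ ha
        have ha' : a = Additive.ofMul (g ^ i) := ha
        show -a = Additive.ofMul (g ^ (-i))
        rw [ha', zpow_neg]
        rfl }
  obtain ⟨κ, hκ⟩ := Pool.Agent.Q285.EX.exists_char_of_rel Γ
    ((zmultiplesHom (Additive ℂˣ)) (Additive.ofMul ξ)) (by
      intro b hb
      have hb' : (0 : Additive G) = Additive.ofMul (g ^ b) := hb
      have h1 : g ^ b = 1 := (congrArg Additive.toMul hb').symm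
      have h2 : ((Nat.card G : ℕ) : ℤ) ∣ b := by
        rw [← hgo]
        exact orderOf_dvd_iff_zpow_eq_one.2 h1
      have h3 : ((N : ℕ) : ℤ) ∣ b := (Int.natCast_dvd_natCast.2 h).trans h2
      rw [zmultiplesHom_apply, ← ofMul_zpow, (hξ.zpow_eq_one_iff_dvd b).2 h3, ofMul_one])
  have hκg : κ (Additive.ofMul g) = Additive.ofMul ξ := by
    have h1 := hκ (Additive.ofMul g) 1 (by
      show Additive.ofMul g = Additive.ofMul (g ^ (1 : ℤ))
      rw [zpow_one])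
    rw [h1, zmultiplesHom_apply, one_zsmul]
  refine ⟨κ, g, ξ, hξ, hκg, fun x => ?_⟩
  obtain ⟨i, hi⟩ := Subgroup.mem_zpowers_iff.1 (hg x.toMul)
  have hx : x = i • Additive.ofMul g := by
    rw [← ofMul_zpow, hi]
    rfl
  have h3 : N • (i • Additive.ofMul ξ) = i • (N • Additive.ofMul ξ) := by
    rw [← natCast_zsmul, ← natCast_zsmul, ← mul_zsmul, ← mul_zsmul, mul_comm]
  rw [hx, map_zsmul, hκg, h3, ← ofMul_pow, hξ.pow_eq_one, ofMul_one, smul_zero]

section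

variable {K : Type} [Field K] [NumberField K]

theorem val_one_of_not_mem {v : HeightOneSpectrum (𝓞 K)} {a : 𝓞 K} (h : a ∉ v.asIdeal) :
    v.valuation K (algebraMap (𝓞 K) K a) = 1 := by
  refine le_antisymm (v.valuation_le_one a) (not_lt.1 fun h1 => h ?_)
  exact (v.valuation_lt_one_iff_mem (K := K) a).1 h1

theorem not_mem_of_val_one {v : HeightOneSpectrum (𝓞 K)} {a : 𝓞 K}
    (h : v.valuation K (algebraMap (𝓞 K) K a) = 1) : a ∉ v.asIdeal := by
  intro h1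
  have h2 := (v.valuation_lt_one_iff_mem (K := K) a).2 h1
  exact absurd h h2.ne

theorem exists_frac {v : HeightOneSpectrum (𝓞 K)} {x : K} (hx : v.valuation K x = 1) :
    ∃ a c : 𝓞 K, a ∉ v.asIdeal ∧ c ∉ v.asIdeal ∧ x * algebraMap (𝓞 K) K c = algebraMap (𝓞 K) K a := by
  obtain ⟨a, d, had⟩ := v.exists_primeCompl_mul_eq_of_integer x hx.le
  refine ⟨a, d, not_mem_of_val_one ?_, d.2, had⟩
  have h1 := congrArg (v.valuation K) had
  rw [map_mul, hx, one_mul] at h1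
  exact h1.symm.trans (val_one_of_not_mem d.2)

/-- elements with trivial divisor are units -/
theorem exists_unit_of_prin {x : Kˣ} (h : prin x = 0) : ∃ u : (𝓞 K)ˣ, algebraMap (𝓞 K) K (u : 𝓞 K) = x := by
  have hv : ∀ v : HeightOneSpectrum (𝓞 K), v.valuation K (x : K) = 1 := fun v =>
    Pool.Agent.Q285.EX.val_one_of_prin (by rw [h]; rfl)
  obtain ⟨r, hr⟩ := HeightOneSpectrum.mem_integers_of_valuation_le_one (R := 𝓞 K) K (x : K)
    (fun v => (hv v).le)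
  obtain ⟨s, hs⟩ := HeightOneSpectrum.mem_integers_of_valuation_le_one (R := 𝓞 K) K ((x : K)⁻¹)
    (fun v => by rw [map_inv₀, hv v, inv_one])
  have h1 : r * s = 1 := by
    apply IsFractionRing.injective (𝓞 K) K
    rw [map_mul, hr, hs, map_one, mul_inv_cancel₀ x.ne_zero]
  exact ⟨⟨r, s, h1, by rw [mul_comm]; exact h1⟩, hr⟩

end

theorem t_CX : S_CX := by
  intro p hpf K _ _ 𝔮 m hm hq hdvd hunits
  classical
  have hp : p.Prime := hpf.out
  haveI : 𝔮.asIdeal.IsMaximal := 𝔮.isMaximal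
  haveI : 𝔮.asIdeal.IsPrime := 𝔮.isPrime
  have hcardk : Nat.card (𝓞 K ⧸ 𝔮.asIdeal) = Ideal.absNorm 𝔮.asIdeal := rfl
  haveI hfin : Finite (𝓞 K ⧸ 𝔮.asIdeal) := by
    apply Nat.finite_of_card_ne_zero
    rw [hcardk]
    exact hq.ne_zero
  haveI : IsDomain (𝓞 K ⧸ 𝔮.asIdeal) := Ideal.Quotient.isDomain _
  have hunit : ∀ a : 𝓞 K, a ∉ 𝔮.asIdeal → ∃ u : (𝓞 K ⧸ 𝔮.asIdeal)ˣ, (u : 𝓞 K ⧸ 𝔮.asIdeal) =
      Ideal.Quotient.mk 𝔮.asIdeal a := by
    intro a ha
    letI := Ideal.Quotient.field 𝔮.asIdeal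
    have h1 : Ideal.Quotient.mk 𝔮.asIdeal a ≠ 0 := by
      rw [Ne, Ideal.Quotient.eq_zero_iff_mem]
      exact ha
    exact ⟨Units.mk0 _ h1, rfl⟩
  have hcardu : Nat.card (𝓞 K ⧸ 𝔮.asIdeal)ˣ = Ideal.absNorm 𝔮.asIdeal - 1 := by
    letI := Ideal.Quotient.field 𝔮.asIdeal
    rw [← hcardk]
    exact Nat.card_units (𝓞 K ⧸ 𝔮.asIdeal)
  obtain ⟨κ, g, ξ, hξ, hκg, hκN⟩ := exists_char_cyclic (G := (𝓞 K ⧸ 𝔮.asIdeal)ˣ)
    (pow_ne_zero m hp.ne_zero) (by rw [hcardu]; exact hdvd)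
  -- the graph of the residue map
  let Γ : AddSubgroup (Dv K × Additive (𝓞 K ⧸ 𝔮.asIdeal)ˣ) :=
    { carrier := {P | ∃ (x : Kˣ) (a c : 𝓞 K), a ∉ 𝔮.asIdeal ∧ c ∉ 𝔮.asIdeal ∧ (x : K) * algebraMap (𝓞 K) K c = algebraMap (𝓞 K) K a ∧
        P.1 = prin x ∧ ((P.2.toMul : (𝓞 K ⧸ 𝔮.asIdeal)ˣ) : 𝓞 K ⧸ 𝔮.asIdeal) *
          Ideal.Quotient.mk 𝔮.asIdeal c = Ideal.Quotient.mk 𝔮.asIdeal a}
      add_mem' := by
        rintro P P' ⟨x, a, c, ha, hc, hx, h1, h2⟩ ⟨x', a', c', ha', hc', hx', h1', h2'⟩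
        refine ⟨x * x', a * a', c * c', fun h => ?_, fun h => ?_, ?_, ?_, ?_⟩
        · exact (Ideal.IsPrime.mem_or_mem inferInstance h).elim ha ha'
        · exact (Ideal.IsPrime.mem_or_mem inferInstance h).elim hc hc'
        · rw [Units.val_mul, map_mul, map_mul]
          rw [← hx, ← hx']
          ring
        · rw [Prod.fst_add, h1, h1', prin_mul]
        · rw [Prod.snd_add, toMul_add, Units.val_mul, map_mul, map_mul, ← h2, ← h2']
          ring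
      zero_mem' := by
        have h1 : (1 : 𝓞 K) ∉ 𝔮.asIdeal := fun h => 𝔮.isPrime.ne_top ((Ideal.eq_top_iff_one _).2 h)
        refine ⟨1, 1, 1, h1, h1, by simp, ?_, ?_⟩
        · rw [prin_one]; rfl
        · rw [Prod.snd_zero, toMul_zero, Units.val_one, one_mul]
      neg_mem' := by
        rintro P ⟨x, a, c, ha, hc, hx, h1, h2⟩
        refine ⟨x⁻¹, c, a, hc, ha, ?_, ?_, ?_⟩
        · rw [← hx, Units.val_inv_eq_inv_val, inv_mul_cancel_left₀ x.ne_zero]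
        · rw [Prod.fst_neg, h1, prin_inv]
        · rw [Prod.snd_neg, toMul_neg, ← h2, Units.inv_mul_cancel_left] }
  obtain ⟨χ', hχ'⟩ := Pool.Agent.Q285.EX.exists_char_of_rel Γ κ (by
    rintro b ⟨x, a, c, ha, hc, hx, h1, h2⟩
    obtain ⟨u, hu⟩ := exists_unit_of_prin h1.symm
    obtain ⟨y, hy⟩ := hunits u
    have h3 : (u : 𝓞 K) * c = a := by
      apply IsFractionRing.injective (𝓞 K) K
      rw [map_mul, hu]
      exact hx
    obtain ⟨uc, huc⟩ := hunit c hc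
    have h4 : ((b.toMul : (𝓞 K ⧸ 𝔮.asIdeal)ˣ) : 𝓞 K ⧸ 𝔮.asIdeal) = Ideal.Quotient.mk 𝔮.asIdeal (u : 𝓞 K) := by
      have h5 : ((b.toMul : (𝓞 K ⧸ 𝔮.asIdeal)ˣ) : 𝓞 K ⧸ 𝔮.asIdeal) * (uc : 𝓞 K ⧸ 𝔮.asIdeal) =
          Ideal.Quotient.mk 𝔮.asIdeal (u : 𝓞 K) * (uc : 𝓞 K ⧸ 𝔮.asIdeal) := by
        rw [huc, ← map_mul, h3]
        exact h2
      exact uc.isUnit.mul_right_cancel h5
    have h6 : Ideal.Quotient.mk 𝔮.asIdeal (u : 𝓞 K) = Ideal.Quotient.mk 𝔮.asIdeal y ^ p ^ m := by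
      rw [← map_pow]
      exact Ideal.Quotient.eq.2 hy
    have h7 : IsUnit (Ideal.Quotient.mk 𝔮.asIdeal y) := by
      rw [← isUnit_pow_iff (pow_ne_zero m hp.ne_zero), ← h6, ← h4]
      exact Units.isUnit _
    obtain ⟨y', hy'⟩ := h7
    have h8 : b = p ^ m • Additive.ofMul y' := by
      rw [← ofMul_pow]
      apply Additive.toMul.injective
      ext
      rw [h4, h6, toMul_ofMul, Units.val_pow_eq_pow_val, hy']
    rw [h8, map_nsmul]
    exact hκN _)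
  -- forget the coefficient at `𝔮`
  let er : Dv K →+ Dv K := AddMonoidHom.id (Dv K) -
    (Finsupp.singleAddHom 𝔮).comp (Finsupp.applyAddHom 𝔮)
  have her : ∀ D : Dv K, er D = D - Finsupp.single 𝔮 (D 𝔮) := fun D => rfl
  have her0 : ∀ D : Dv K, D 𝔮 = 0 → er D = D := by
    intro D hD
    rw [her, hD, Finsupp.single_zero, sub_zero]
  have her1 : ∀ D : Dv K, (er D) 𝔮 = 0 := by
    intro D
    rw [her, Finsupp.sub_apply, Finsupp.single_eq_same, sub_self]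
  have hχp : ∀ x : Kˣ, 𝔮.valuation K (x : K) = 1 → er (prin x) = prin x := fun x hx =>
    her0 _ (Pool.Agent.Q125.AR.prin_eq_zero_of_valuation hx)
  obtain ⟨h₀, hh₀⟩ : ∃ h₀, h₀ = (prinHom (F := K)).range.relIndex (Pr K 1) := ⟨_, rfl⟩
  have hh0 : h₀ ≠ 0 := hh₀ ▸ Pool.Agent.Q225.AR.fin_class 1
  have hkill : ∀ D : Dv K, (h₀ * p ^ m) • (χ'.comp er) D = 0 := by
    intro D
    have h1 : h₀ • (⟨er D, fun v hv => absurd hv (by
        rw [Nat.cast_one]
        exact fun h => v.isPrime.ne_top ((Ideal.eq_top_iff_one _).2 h))⟩ : Pr K 1) ∈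
        (prinHom (F := K)).range.addSubgroupOf (Pr K 1) := by
      rw [hh₀]
      exact AddSubgroup.nsmul_index_mem _ _
    rw [AddSubgroup.mem_addSubgroupOf] at h1
    obtain ⟨x, hx⟩ := h1
    have hx' : prin x.toMul = h₀ • er D := hx
    have hv : 𝔮.valuation K ((x.toMul : Kˣ) : K) = 1 := by
      apply Pool.Agent.Q285.EX.val_one_of_prin
      rw [hx', Finsupp.smul_apply, her1, smul_zero]
    obtain ⟨a, c, ha, hc, hac⟩ := exists_frac hv
    obtain ⟨ua, hua⟩ := hunit a ha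
    obtain ⟨uc, huc⟩ := hunit c hc
    have h2 := hχ' (prin x.toMul) (Additive.ofMul (ua * uc⁻¹)) ⟨x.toMul, a, c, ha, hc, hac, rfl, by
      rw [toMul_ofMul, ← huc, ← hua, Units.val_mul, mul_assoc, Units.inv_mul, mul_one]⟩
    rw [AddMonoidHom.comp_apply, mul_comm, mul_smul, ← map_nsmul, ← hx', h2]
    exact hκN _
  obtain ⟨M, f, hf, hfM⟩ := Nat.exists_eq_pow_mul_and_not_dvd (mul_ne_zero hh0 (pow_ne_zero m hp.ne_zero))
    p hp.ne_one
  have hsm : ∀ D : Dv K, (f • χ'.comp er) D = f • (χ'.comp er) D := fun D => rfl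
  refine ⟨f • χ'.comp er, fun x hx => ?_, ⟨M, fun D => ?_⟩, ?_⟩
  · have hx1 : 𝔮.valuation K (x : K) = 1 := by
      have h2 : 𝔮.valuation K ((x : K) - 1) < 𝔮.valuation K (1 : K) := by
        rw [map_one]; exact hx
      have h3 := Valuation.map_add_eq_of_lt_right (𝔮.valuation K) h2
      rw [sub_add_cancel, map_one] at h3
      exact h3
    obtain ⟨a, c, ha, hc, hac⟩ := exists_frac hx1
    have hmem : a - c ∈ 𝔮.asIdeal := by
      rw [← 𝔮.valuation_lt_one_iff_mem (K := K)]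
      change 𝔮.valuation K (algebraMap (𝓞 K) K (a - c)) < 1
      have h2 : algebraMap (𝓞 K) K (a - c) = ((x : K) - 1) * algebraMap (𝓞 K) K c := by
        rw [map_sub, sub_mul, one_mul, hac]
      rw [h2, map_mul]
      exact (mul_le_of_le_one_right' (𝔮.valuation_le_one c)).trans_lt hx
    have h2 := hχ' (prin x) 0 ⟨x, a, c, ha, hc, hac, rfl, by
      rw [toMul_zero, Units.val_one, one_mul]
      exact (Ideal.Quotient.eq.2 hmem).symm⟩
    rw [hsm, AddMonoidHom.comp_apply, hχp x hx1, h2, map_zero, smul_zero]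
  · rw [hsm, ← mul_smul, ← hfM]
    exact hkill D
  · obtain ⟨a, ha⟩ := Ideal.Quotient.mk_surjective (I := 𝔮.asIdeal) (g : 𝓞 K ⧸ 𝔮.asIdeal)
    have ha𝔮 : a ∉ 𝔮.asIdeal := by
      intro h
      rw [Ideal.Quotient.eq_zero_iff_mem.2 h] at ha
      exact g.ne_zero ha.symm
    have ha0 : algebraMap (𝓞 K) K a ≠ 0 := by
      intro h
      rw [map_eq_zero_iff _ (IsFractionRing.injective (𝓞 K) K)] at h
      exact ha𝔮 (h ▸ 𝔮.asIdeal.zero_mem)
    have hx1 : 𝔮.valuation K ((Units.mk0 (algebraMap (𝓞 K) K a) ha0 : Kˣ) : K) = 1 := val_one_of_not_mem ha𝔮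
    refine ⟨Units.mk0 (algebraMap (𝓞 K) K a) ha0, hx1, ?_⟩
    have h1 : (1 : 𝓞 K) ∉ 𝔮.asIdeal := fun h => 𝔮.isPrime.ne_top ((Ideal.eq_top_iff_one _).2 h)
    have h2 := hχ' (prin (Units.mk0 (algebraMap (𝓞 K) K a) ha0)) (Additive.ofMul g)
      ⟨Units.mk0 (algebraMap (𝓞 K) K a) ha0, a, 1, ha𝔮, h1, by simp, rfl, by
        rw [toMul_ofMul, map_one, mul_one, ha]⟩
    rw [hsm, AddMonoidHom.comp_apply, hχp _ hx1, h2, hκg, ← mul_smul, ← ofMul_pow]
    intro h3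
    have h4 : ξ ^ (p ^ (m - 1) * f) = 1 := h3
    rw [hξ.pow_eq_one_iff_dvd] at h4
    obtain ⟨m', rfl⟩ : ∃ m', m = m' + 1 := ⟨m - 1, by omega⟩
    rw [Nat.add_sub_cancel, pow_succ] at h4
    exact hf (Nat.dvd_of_mul_dvd_mul_left (pow_pos hp.pos _) h4)

end Pool.Agent.Q177.SG
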