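import Pool.Agent.Q5.SG.Stm

/-!
# SG-IN (project SG of helper5): the number of the invariants of `CU (n+1) / CV n` (helper177)
-/

set_option autoImplicit false

namespace Pool.Agent.Q177.SG

open NumberField IsDedekindDomain Module Pool.Agent.Y18.LC Pool.Agent.Q5.SG Finset

section

variable {p : ℕ} [Fact p.Prime] {K H : Type} [Field K] [NumberField K] [Field H] [NumberField H]
  [Algebra K H]

/-- the elements of `Kˣ` in `Hˣ` -/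
noncomputable def io (K H : Type) [Field K] [NumberField K] [Field H] [NumberField H] [Algebra K H] :
    Kˣ →* Hˣ := Units.map (algebraMap K H).toMonoidHom

omit [Fact p.Prime] in
lemma coe_io (a : Kˣ) : ((io K H a : Hˣ) : H) = algebraMap K H (a : K) := rfl

lemma CU_mono {S : Set (K →+* ℂ_[p])} {i j : ℕ} (h : i ≤ j) : CU S H j ≤ CU S H i :=
  fun _ hu => ⟨hu.1, hu.2.mono h⟩

/-- elements of `QU 𝔮` have norm `1` -/
lemma norm_QU (hVL : S_VL) {𝔮 : HeightOneSpectrum (𝓞 K)} (hq : (p : 𝓞 K) ∉ 𝔮.asIdeal)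
    (σ : K →+* ℂ_[p]) {η : Kˣ} (hη : η ∈ QU 𝔮) : ‖σ (η : K)‖ = 1 := by
  have h1 : ∀ x ∈ QU 𝔮, ‖σ ((x : Kˣ) : K)‖ ≤ 1 := by
    intro x hx
    refine hVL p K σ _ fun v hv => ?_
    refine (hx v ?_).le
    rintro rfl
    exact hq hv
  refine le_antisymm (h1 η hη) ?_
  have h2 := h1 η⁻¹ (inv_mem hη)
  rw [Units.val_inv_eq_inv_val, map_inv₀, norm_inv] at h2
  have h3 : 0 < ‖σ (η : K)‖ := norm_pos_iff.2 ((map_ne_zero σ).2 η.ne_zero)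
  exact (inv_le_one₀ h3).1 h2

/-- the second step -/
lemma step2 (hSM : S_SM) (hPW : S_PW) (hFE : S_FE) (hVL : S_VL) (hEX : S_EX)
    (hIT : S_IT) (hp2 : p ≠ 2) (hK : Unram K p) (S : Set (K →+* ℂ_[p])) (n₀ : ℕ)
    {𝔮 : HeightOneSpectrum (𝓞 K)} (hq : (p : 𝓞 K) ∉ 𝔮.asIdeal) (hcond : CondQ S 𝔮 n₀)
    {n s : ℕ} (hs : 1 ≤ s) (hns : n₀ + s = n + 1) (hH : Unram H p) {T' : Finset Kˣ}
    (hT' : ∀ η ∈ QU 𝔮, ∃ τ ∈ T', ∃ θ ∈ QU 𝔮, η = τ * θ ^ p ^ n₀) {u : Hˣ} (hu : u ∈ CU S H (n + 1))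
    {η : Kˣ} (hη : η ∈ QU 𝔮) {ω : Hˣ} (h : u = io K H η * ω ^ p ^ n) :
    ∃ τ ∈ T', ∃ ω' : Hˣ, u = io K H τ ^ p ^ s * ω' ^ p ^ n := by
  have hp : p.Prime := Fact.out
  obtain ⟨f, hfp, hf⟩ := hFE p H
  have hη1 : ∀ σ : H →+* ℂ_[p], ‖σ (algebraMap K H (η : K))‖ = 1 := fun σ =>
    norm_QU hVL hq (σ.comp (algebraMap K H)) hη
  have hω1 : ∀ σ : H →+* ℂ_[p], ‖σ (ω : H)‖ = 1 := by
    intro σ
    have h1 := norm_eq_one_of_EU σ hu.1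
    rw [h, Units.val_mul, map_mul, norm_mul, coe_io, hη1, one_mul, Units.val_pow_eq_pow_val, map_pow,
      norm_pow] at h1
    exact (pow_eq_one_iff_of_nonneg (norm_nonneg _) (pow_pos hp.pos n).ne').1 h1
  have hωf : ∀ σ : H →+* ℂ_[p], ‖(σ (ω : H) ^ f) ^ p ^ n - 1‖ ≤ ((p : ℝ)⁻¹) ^ (n + 1) := by
    intro σ
    have h1 := hf σ (ω : H) (hω1 σ)
    have h2 : ‖σ ((ω : H) ^ f - 1)‖ ≤ (p : ℝ)⁻¹ := by
      refine hSM p H hH σ _ ?_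
      rw [map_sub, map_pow, map_one]
      exact h1
    rw [map_sub, map_pow, map_one] at h2
    rw [hPW p hp2 _ h2 n, pow_succ]
    exact mul_le_mul_of_nonneg_left h2 (by positivity)
  have hcl : Cl S (n + 1) (algebraMap K H ((η ^ f : Kˣ) : K)) := by
    intro σ hσ
    have h1 : ‖σ ((u ^ f : Hˣ) : H) - 1‖ ≤ ((p : ℝ)⁻¹) ^ (n + 1) := (pow_mem hu f).2 σ hσ
    have h2 := hωf σ
    have hB : ‖(σ (ω : H) ^ f) ^ p ^ n‖ = 1 := by
      rw [norm_pow, norm_pow, hω1, one_pow, one_pow]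
    have h3 : σ ((u ^ f : Hˣ) : H) = σ (algebraMap K H ((η ^ f : Kˣ) : K)) * (σ (ω : H) ^ f) ^ p ^ n := by
      rw [h, mul_pow]
      simp only [Units.val_mul, Units.val_pow_eq_pow_val, coe_io, map_mul, map_pow]
      congr 1
      rw [← pow_mul, ← pow_mul, mul_comm f]
    have h4 : ‖(σ (algebraMap K H ((η ^ f : Kˣ) : K)) - 1) * (σ (ω : H) ^ f) ^ p ^ n‖ ≤
        ((p : ℝ)⁻¹) ^ (n + 1) := by
      have h5 : (σ (algebraMap K H ((η ^ f : Kˣ) : K)) - 1) * (σ (ω : H) ^ f) ^ p ^ n =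
          (σ ((u ^ f : Hˣ) : H) - 1) - ((σ (ω : H) ^ f) ^ p ^ n - 1) := by
        rw [h3]; ring
      rw [h5, sub_eq_add_neg]
      refine (IsUltrametricDist.norm_add_le_max _ _).trans (max_le h1 ?_)
      rw [norm_neg]
      exact h2
    rwa [norm_mul, hB, mul_one] at h4
  have hcl2 : Cl (E := K) S (n₀ + s) ((η ^ f : Kˣ) : K) := by
    rw [hns]
    exact (hEX p K K H S (n + 1) _).1 hcl
  obtain ⟨b, hb, hbη⟩ := hIT p hp2 K hK S 𝔮 n₀ hcond s hs (η ^ f) (pow_mem hη f) hcl2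
  have hcop : IsCoprime ((f : ℕ) : ℤ) ((p ^ s : ℕ) : ℤ) := by
    rw [Nat.isCoprime_iff_coprime]
    exact hfp.pow_right s
  obtain ⟨x, y, hxy⟩ := hcop
  have hη' : η = (b ^ x * η ^ y) ^ p ^ s := by
    have h1 : η = η ^ (x * (f : ℤ) + y * ((p ^ s : ℕ) : ℤ)) := by rw [hxy, zpow_one]
    have h2 : η ^ (x * (f : ℤ) + y * ((p ^ s : ℕ) : ℤ)) = (η ^ f) ^ x * (η ^ y) ^ (p ^ s) := by
      rw [zpow_add, mul_comm x, zpow_mul, zpow_natCast, zpow_mul η y, zpow_natCast]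
    have h3 : (η ^ f) ^ x = (b ^ x) ^ p ^ s := by
      rw [← hbη, ← zpow_natCast, ← zpow_natCast, ← zpow_mul, ← zpow_mul, mul_comm]
    rw [mul_pow, ← h3, ← h2]
    exact h1
  obtain ⟨τ, hτ, θ, hθ, hτθ⟩ := hT' (b ^ x * η ^ y) (mul_mem (zpow_mem hb x) (zpow_mem hη y))
  refine ⟨τ, hτ, io K H (θ ^ p) * ω, ?_⟩
  have h5 : η = τ ^ p ^ s * (θ ^ p) ^ p ^ n := by
    conv_lhs => rw [hη', hτθ]
    rw [mul_pow, ← pow_mul, ← pow_mul, ← pow_add, hns, ← pow_succ']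
  rw [h]
  conv_lhs => rw [h5]
  rw [map_mul, map_pow, map_pow, mul_pow, mul_assoc]

end

theorem t_IN : J_IN := by
  intro hSM hPW hRT hFE hVL hEX hCQ hQF hIT hHB hDV hRC p hpf hp2 K _ _ hK S n₀
  classical
  have hp : p.Prime := hpf.out
  obtain ⟨B', hB'⟩ := hQF K (p ^ n₀) (pow_pos hp.pos _)
  refine ⟨Nat.card (ClassGroup (𝓞 K)) * B', ?_⟩
  intro 𝔮 hq hcond n hn H _ _ _ _ hH hram
  obtain ⟨T', hT'c, hT'⟩ := hB' 𝔮
  obtain ⟨T, hTc, hT⟩ := hCQ K 𝔮 (p ^ n) (pow_pos hp.pos _)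
  obtain ⟨s, hs⟩ : ∃ s, s = n + 1 - n₀ := ⟨_, rfl⟩
  have hs1 : 1 ≤ s := by omega
  have hns : n₀ + s = n + 1 := by omega
  let I : Subgroup Hˣ :=
    { carrier := {u | u ∈ CU S H (n + 1) ∧ ∀ g : H ≃ₐ[K] H, g • u / u ∈ CV S H n}
      mul_mem' := by
        rintro a b ⟨ha, ha'⟩ ⟨hb, hb'⟩
        refine ⟨mul_mem ha hb, fun g => ?_⟩
        rw [smul_mul', mul_div_mul_comm]
        exact mul_mem (ha' g) (hb' g)
      one_mem' := ⟨one_mem _, fun g => by rw [smul_one, div_one]; exact one_mem _⟩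
      inv_mem' := by
        rintro a ⟨ha, ha'⟩
        refine ⟨inv_mem ha, fun g => ?_⟩
        rw [smul_inv', inv_div_inv, ← inv_div]
        exact inv_mem (ha' g) }
  let I₁ : Subgroup Hˣ :=
    { carrier := {u | u ∈ CU S H (n + 1) ∧ ∃ η ∈ QU 𝔮, ∃ ω : Hˣ, u = io K H η * ω ^ p ^ n}
      mul_mem' := by
        rintro a b ⟨ha, η, hη, ω, h⟩ ⟨hb, η', hη', ω', h'⟩
        refine ⟨mul_mem ha hb, η * η', mul_mem hη hη', ω * ω', ?_⟩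
        rw [h, h', map_mul, mul_pow, mul_mul_mul_comm]
      one_mem' := ⟨one_mem _, 1, one_mem _, 1, by rw [map_one, one_pow, mul_one]⟩
      inv_mem' := by
        rintro a ⟨ha, η, hη, ω, h⟩
        refine ⟨inv_mem ha, η⁻¹, inv_mem hη, ω⁻¹, ?_⟩
        rw [h, map_inv, inv_pow, mul_inv] }
  obtain ⟨R₁, hR₁c, hR₁I, hR₁⟩ := rep_lemma I T
    (fun u t => ∃ η ∈ QU 𝔮, ∃ ω : Hˣ, u = io K H t * io K H η * ω ^ p ^ n)
    (fun u hu => by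
      obtain ⟨a, c, hac⟩ := hHB p hp2 K H hH n u (fun g => by
        obtain ⟨w, hw, hwu⟩ := hu.2 g
        exact ⟨w, hw.1, hwu⟩)
      obtain ⟨t, ht, η, hη, b, hb⟩ := hT a (fun v hv => hDV K H v (hram v hv) u hu.1.1 a c (p ^ n) hac)
      refine ⟨t, ht, η, hη, io K H b * c, ?_⟩
      rw [← hac]
      change io K H a * c ^ p ^ n = _
      rw [hb, map_mul, map_mul, map_pow, mul_pow, mul_assoc, mul_assoc])
    (fun u => ∃ η ∈ QU 𝔮, ∃ ω : Hˣ, u = io K H η * ω ^ p ^ n)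
    (fun u _ u' _ t => by
      rintro ⟨η, hη, ω, h⟩ ⟨η', hη', ω', h'⟩
      refine ⟨η / η', div_mem hη hη', ω / ω', ?_⟩
      rw [h, h', map_div, div_pow, mul_assoc, mul_assoc, mul_div_mul_left_eq_div, mul_div_mul_comm])
  obtain ⟨R₂, hR₂c, -, hR₂⟩ := rep_lemma I₁ T'
    (fun u τ => ∃ ω : Hˣ, u = io K H τ ^ p ^ s * ω ^ p ^ n)
    (fun u hu => by
      obtain ⟨huC, η, hη, ω, h⟩ := hu
      exact step2 hSM hPW hFE hVL hEX hIT hp2 hK S n₀ hq hcond hs1 hns hH hT' huC hη h)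
    (fun u => u ∈ CV S H n)
    (fun u hu u' hu' τ => by
      rintro ⟨ω, h⟩ ⟨ω', h'⟩
      have h1 : u / u' = (ω / ω') ^ p ^ n := by
        rw [h, h', mul_div_mul_left_eq_div, div_pow]
      refine ⟨ω / ω', ?_, h1.symm⟩
      apply hRC p K H hH S n
      rw [← h1]
      exact CU_mono (by omega) (div_mem hu.1 hu'.1))
  refine ⟨image₂ (fun a b => a * b) R₁ R₂, ?_, ?_⟩
  · exact (card_image₂_le _ _ _).trans (Nat.mul_le_mul (hR₁c.trans hTc) (hR₂c.trans hT'c))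
  · intro u hu hinv
    obtain ⟨r₁, hr₁, h1⟩ := hR₁ u ⟨hu, hinv⟩
    obtain ⟨r₂, hr₂, h2⟩ := hR₂ (u / r₁) ⟨div_mem hu (hR₁I r₁ hr₁).1, h1⟩
    refine ⟨r₁ * r₂, mem_image₂_of_mem hr₁ hr₂, ?_⟩
    rw [← div_div]
    exact h2

end Pool.Agent.Q177.SG
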